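import Pool.Agent.U433.Sep8Core

/-!
Separating eight points in space: the certificate and the combinatorial core.
-/

set_option autoImplicit false

namespace Pool.Agent.U433.Sep8

variable {x y z : ℕ → ℝ}

/-- Four indices and an asserted sign. -/
abbrev T5 := ℕ × ℕ × ℕ × ℕ × Bool

def c12 (t : T5) : T5 :=
  if t.2.1 < t.1 then (t.2.1, t.1, t.2.2.1, t.2.2.2.1, !t.2.2.2.2) else t

def c23 (t : T5) : T5 :=
  if t.2.2.1 < t.2.1 then (t.1, t.2.2.1, t.2.1, t.2.2.2.1, !t.2.2.2.2) else t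

def c34 (t : T5) : T5 :=
  if t.2.2.2.1 < t.2.2.1 then (t.1, t.2.1, t.2.2.2.1, t.2.2.1, !t.2.2.2.2) else t

/-- Sorting, keeping track of the sign. -/
def srt (t : T5) : T5 := c12 (c23 (c12 (c34 (c23 (c12 t)))))

/-- The literal asserting that the orientation of `a b c d` is positive iff `s`. -/
def lit4 (a b c d : ℕ) (s : Bool) : Lit :=
  let t := srt (a, b, c, d, s)
  (512 * t.1 + 64 * t.2.1 + 8 * t.2.2.1 + t.2.2.2.1, t.2.2.2.2)

/-- The statement coded by a `T5`. -/
def Holds (x y z : ℕ → ℝ) (t : T5) : Prop :=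
  (0 < D x y z t.1 t.2.1 t.2.2.1 t.2.2.2.1 ↔ t.2.2.2.2 = true)

def Good (x y z : ℕ → ℝ) (t : T5) : Prop :=
  t.1 < 8 ∧ t.2.1 < 8 ∧ t.2.2.1 < 8 ∧ t.2.2.2.1 < 8 ∧ D x y z t.1 t.2.1 t.2.2.1 t.2.2.2.1 ≠ 0

theorem flip_aux {u w : ℝ} (hu : u ≠ 0) (h : w = -u) (s : Bool) :
    (0 < u ↔ s = true) ↔ (0 < w ↔ (!s) = true) := by
  subst h
  rcases lt_or_gt_of_ne hu with h1 | h1
  · have h2 : ¬ 0 < u := not_lt.2 h1.le
    have h3 : 0 < -u := by linarith
    cases s <;> simp [h2, h3]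
  · have h3 : ¬ 0 < -u := by linarith
    cases s <;> simp [h1, h3]

theorem c12_ok (t : T5) (hg : Good x y z t) :
    Good x y z (c12 t) ∧ (Holds x y z t ↔ Holds x y z (c12 t)) := by
  obtain ⟨a, b, c, d, s⟩ := t
  obtain ⟨h1, h2, h3, h4, h5⟩ := hg
  unfold c12
  split_ifs with h
  · refine ⟨⟨h2, h1, h3, h4, ?_⟩, ?_⟩
    · simp only at h5 ⊢; rw [D_swap12]; exact neg_ne_zero.2 h5
    · exact flip_aux h5 (D_swap12 a b c d) s
  · exact ⟨⟨h1, h2, h3, h4, h5⟩, Iff.rfl⟩

theorem c23_ok (t : T5) (hg : Good x y z t) :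
    Good x y z (c23 t) ∧ (Holds x y z t ↔ Holds x y z (c23 t)) := by
  obtain ⟨a, b, c, d, s⟩ := t
  obtain ⟨h1, h2, h3, h4, h5⟩ := hg
  unfold c23
  split_ifs with h
  · refine ⟨⟨h1, h3, h2, h4, ?_⟩, ?_⟩
    · simp only at h5 ⊢; rw [D_swap23]; exact neg_ne_zero.2 h5
    · exact flip_aux h5 (D_swap23 a b c d) s
  · exact ⟨⟨h1, h2, h3, h4, h5⟩, Iff.rfl⟩

theorem c34_ok (t : T5) (hg : Good x y z t) :
    Good x y z (c34 t) ∧ (Holds x y z t ↔ Holds x y z (c34 t)) := by
  obtain ⟨a, b, c, d, s⟩ := t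
  obtain ⟨h1, h2, h3, h4, h5⟩ := hg
  unfold c34
  split_ifs with h
  · refine ⟨⟨h1, h2, h4, h3, ?_⟩, ?_⟩
    · simp only at h5 ⊢; rw [D_swap34]; exact neg_ne_zero.2 h5
    · exact flip_aux h5 (D_swap34 a b c d) s
  · exact ⟨⟨h1, h2, h3, h4, h5⟩, Iff.rfl⟩

theorem srt_ok (t : T5) (hg : Good x y z t) :
    Good x y z (srt t) ∧ (Holds x y z t ↔ Holds x y z (srt t)) := by
  have h1 := c12_ok t hg
  have h2 := c23_ok _ h1.1
  have h3 := c34_ok _ h2.1
  have h4 := c12_ok _ h3.1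
  have h5 := c23_ok _ h4.1
  have h6 := c12_ok _ h5.1
  exact ⟨h6.1, h1.2.trans (h2.2.trans (h3.2.trans (h4.2.trans (h5.2.trans h6.2))))⟩

open Classical in
/-- The truth assignment given by the points. -/
noncomputable def val (x y z : ℕ → ℝ) (n : ℕ) : Bool :=
  if n < 4096 then decide (0 < D x y z (n / 512) (n / 64 % 8) (n / 8 % 8) (n % 8))
  else decide (Sep x y z (n - 4096))

theorem val_lit4 (a b c d : ℕ) (s : Bool) (hg : Good x y z (a, b, c, d, s)) :
    val x y z (lit4 a b c d s).1 = (lit4 a b c d s).2 ↔ (0 < D x y z a b c d ↔ s = true) := by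
  have h := srt_ok _ hg
  unfold lit4
  set t := srt (a, b, c, d, s) with ht
  obtain ⟨⟨h1, h2, h3, h4, h5⟩, h6⟩ := h
  have e : (0 < D x y z a b c d ↔ s = true) ↔ Holds x y z t := h6
  rw [e]
  simp only [val]
  have hlt : 512 * t.1 + 64 * t.2.1 + 8 * t.2.2.1 + t.2.2.2.1 < 4096 := by omega
  have e1 : (512 * t.1 + 64 * t.2.1 + 8 * t.2.2.1 + t.2.2.2.1) / 512 = t.1 := by omega
  have e2 : (512 * t.1 + 64 * t.2.1 + 8 * t.2.2.1 + t.2.2.2.1) / 64 % 8 = t.2.1 := by omega
  have e3 : (512 * t.1 + 64 * t.2.1 + 8 * t.2.2.1 + t.2.2.2.1) / 8 % 8 = t.2.2.1 := by omega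
  have e4 : (512 * t.1 + 64 * t.2.1 + 8 * t.2.2.1 + t.2.2.2.1) % 8 = t.2.2.2.1 := by omega
  rw [if_pos hlt, e1, e2, e3, e4]
  unfold Holds
  cases t.2.2.2.2 <;> simp

theorem val_sep (m : ℕ) : val x y z (4096 + m) = true ↔ Sep x y z m := by
  unfold val
  rw [if_neg (by omega)]
  simp

/-- Canonical code of a bipartition: bit 0 is set. -/
def canon (m : ℕ) : ℕ := if m.testBit 0 then m else 255 ^^^ m

theorem sep_canon {m : ℕ} (h : Sep x y z m) : Sep x y z (canon m) := by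
  unfold canon
  split_ifs
  · exact h
  · exact h.compl

def unitCl (i j : ℕ) : Cl := [lit4 0 1 i j true]

def gpCl (a b c d e f : ℕ) (s1 s2 s3 sg : Bool) : Cl :=
  [lit4 a b c d (!s1), lit4 a b e f (!(s1 == sg)), lit4 a b c e (!s2), lit4 a b d f (s2 == sg),
    lit4 a b c f (!s3), lit4 a b d e (!(s3 == sg))]

def sepCl (i j k m : ℕ) : Cl :=
  (((List.range 8).filter fun l => !(l == i || l == j || l == k)).map
    fun l => lit4 i j k l (!(m.testBit l))) ++ [(4096 + canon m, true)]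

def goalCl (m1 m2 m3 : ℕ) : Cl := [(4096 + m1, false), (4096 + m2, false), (4096 + m3, false)]

/-- The three bipartitions jointly separate all indices. -/
def goodB (m1 m2 m3 : ℕ) : Bool :=
  (List.range 8).all fun i => (List.range 8).all fun j =>
    i == j || !(m1.testBit i == m1.testBit j && m2.testBit i == m2.testBit j &&
      m3.testBit i == m3.testBit j)

theorem unitCl_sat (hG : GP x y z) (hs : ∀ i j, 2 ≤ i → i < j → j < 8 → 0 < D x y z 0 1 i j)
    (i j : ℕ) (h : 2 ≤ i ∧ i < j ∧ j < 8) : Sat (val x y z) (unitCl i j) := by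
  refine ⟨_, List.mem_singleton.2 rfl, ?_⟩
  have hd := hs i j h.1 h.2.1 h.2.2
  rw [val_lit4]
  · simp [hd]
  · refine ⟨by norm_num, by norm_num, ?_, ?_, hd.ne'⟩ <;> simp only <;> omega

def dist6 (a b c d e f : ℕ) : Bool :=
  (a < 8) && (b < 8) && (c < 8) && (d < 8) && (e < 8) && (f < 8) &&
  (a != b) && (a != c) && (a != d) && (a != e) && (a != f) &&
  (b != c) && (b != d) && (b != e) && (b != f) &&
  (c != d) && (c != e) && (c != f) && (d != e) && (d != f) && (e != f)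

theorem not_sat_lit (hG : GP x y z) (cl : Cl) (hcl : ¬ Sat (val x y z) cl) (a b c d : ℕ) (s : Bool)
    (ha : a < 8) (hb : b < 8) (hc : c < 8) (hd : d < 8) (hab : a ≠ b) (hac : a ≠ c) (had : a ≠ d)
    (hbc : b ≠ c) (hbd : b ≠ d) (hcd : c ≠ d) (hmem : lit4 a b c d s ∈ cl) :
    (0 < D x y z a b c d ↔ s = false) := by
  have hne := hG a b c d ha hb hc hd hab hac had hbc hbd hcd
  have h1 : ¬ (val x y z (lit4 a b c d s).1 = (lit4 a b c d s).2) := fun h => hcl ⟨_, hmem, h⟩
  rw [val_lit4 a b c d s ⟨ha, hb, hc, hd, hne⟩] at h1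
  by_cases hp : 0 < D x y z a b c d
  · cases s <;> simp_all
  · cases s <;> simp_all

theorem sign_prod {u : ℝ} (hu : u ≠ 0) {s : Bool} (h : 0 < u ↔ s = true) :
    0 < sgn s * u := by
  cases s
  · have : ¬ 0 < u := fun h0 => by simpa using h.1 h0
    have : u < 0 := lt_of_le_of_ne (not_lt.1 this) hu
    simp only [sgn]; simp; linarith
  · have : 0 < u := h.2 rfl
    simp only [sgn]; simp; linarith

theorem gpCl_sat (hG : GP x y z) (a b c d e f : ℕ) (s1 s2 s3 sg : Bool)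
    (h : dist6 a b c d e f = true) : Sat (val x y z) (gpCl a b c d e f s1 s2 s3 sg) := by
  simp only [dist6, Bool.and_eq_true, decide_eq_true_eq, bne_iff_ne, ne_eq] at h
  obtain ⟨⟨⟨⟨⟨⟨⟨⟨⟨⟨⟨⟨⟨⟨⟨⟨⟨⟨⟨⟨ha, hb⟩, hc⟩, hd⟩, he⟩, hf⟩, hab⟩, hac⟩, had⟩, hae⟩, haf⟩, hbc⟩,
    hbd⟩, hbe⟩, hbf⟩, hcd⟩, hce⟩, hcf⟩, hde⟩, hdf⟩, hef⟩ := h
  by_contra hcl
  have m := not_sat_lit hG _ hcl
  have k1 := m a b c d (!s1) ha hb hc hd hab hac had hbc hbd hcd (by simp [gpCl])
  have k2 := m a b e f (!(s1 == sg)) ha hb he hf hab hae haf hbe hbf hef (by simp [gpCl])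
  have k3 := m a b c e (!s2) ha hb hc he hab hac hae hbc hbe hce (by simp [gpCl])
  have k4 := m a b d f (s2 == sg) ha hb hd hf hab had haf hbd hbf hdf (by simp [gpCl])
  have k5 := m a b c f (!s3) ha hb hc hf hab hac haf hbc hbf hcf (by simp [gpCl])
  have k6 := m a b d e (!(s3 == sg)) ha hb hd he hab had hae hbd hbe hde (by simp [gpCl])
  have n1 := hG a b c d ha hb hc hd hab hac had hbc hbd hcd
  have n2 := hG a b e f ha hb he hf hab hae haf hbe hbf hef
  have n3 := hG a b c e ha hb hc he hab hac hae hbc hbe hce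
  have n4 := hG a b d f ha hb hd hf hab had haf hbd hbf hdf
  have n5 := hG a b c f ha hb hc hf hab hac haf hbc hbf hcf
  have n6 := hG a b d e ha hb hd he hab had hae hbd hbe hde
  have id := D_gp (x := x) (y := y) (z := z) a b c d e f
  have p1 := sign_prod (s := s1) n1 (by rw [k1]; simp)
  have p2 := sign_prod (s := (s1 == sg)) n2 (by rw [k2]; simp)
  have p3 := sign_prod (s := s2) n3 (by rw [k3]; simp)
  have p4 := sign_prod (s := !(s2 == sg)) n4 (by rw [k4]; simp)
  have p5 := sign_prod (s := s3) n5 (by rw [k5]; simp)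
  have p6 := sign_prod (s := (s3 == sg)) n6 (by rw [k6]; simp)
  have q1 := mul_pos p1 p2
  have q2 := mul_pos p3 p4
  have q3 := mul_pos p5 p6
  cases s1 <;> cases s2 <;> cases s3 <;> cases sg <;> simp [sgn] at q1 q2 q3 <;> nlinarith

def dist3 (i j k : ℕ) : Bool :=
  (i < 8) && (j < 8) && (k < 8) && (i != j) && (i != k) && (j != k)

theorem sepCl_sat (hG : GP x y z) (i j k m : ℕ) (h : dist3 i j k = true) :
    Sat (val x y z) (sepCl i j k m) := by
  simp only [dist3, Bool.and_eq_true, decide_eq_true_eq, bne_iff_ne, ne_eq] at h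
  obtain ⟨⟨⟨⟨⟨hi, hj⟩, hk⟩, hij⟩, hik⟩, hjk⟩ := h
  by_contra hcl
  have hm := not_sat_lit hG _ hcl
  have hsep : Sep x y z m := by
    refine sep_of_plane hG i j k m hi hj hk hij hik hjk ?_
    intro l hl h1 h2 h3
    have := hm i j k l (!(m.testBit l)) hi hj hk hl hij hik (Ne.symm h1) hjk (Ne.symm h2)
      (Ne.symm h3) (by
        unfold sepCl
        rw [List.mem_append]
        left
        rw [List.mem_map]
        refine ⟨l, ?_, rfl⟩
        rw [List.mem_filter]
        refine ⟨List.mem_range.2 hl, ?_⟩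
        simp [h1, h2, h3])
    rw [this]; simp
  apply hcl
  refine ⟨(4096 + canon m, true), ?_, ?_⟩
  · unfold sepCl; simp
  · exact (val_sep _).2 (sep_canon hsep)

theorem goalCl_sat (hno : ∀ m1 m2 m3, goodB m1 m2 m3 = true → Sep x y z m1 → Sep x y z m2 →
    Sep x y z m3 → False) (m1 m2 m3 : ℕ) (h : goodB m1 m2 m3 = true) :
    Sat (val x y z) (goalCl m1 m2 m3) := by
  by_contra hcl
  have k : ∀ m, (4096 + m, false) ∈ goalCl m1 m2 m3 → Sep x y z m := by
    intro m hm
    have : ¬ val x y z (4096 + m) = false := fun h => hcl ⟨_, hm, h⟩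
    exact (val_sep m).1 (by simpa using this)
  exact hno m1 m2 m3 h (k m1 (by simp [goalCl])) (k m2 (by simp [goalCl]))
    (k m3 (by simp [goalCl]))

def parU : List (ℕ × ℕ) := [(2, 3), (2, 5), (2, 4), (2, 7), (3, 6), (6, 7), (4, 7), (5, 6), (3, 5), (3, 4), (3, 7), (4, 6), (4, 5), (5, 7)]

def parG : List (ℕ × ℕ × ℕ × ℕ × ℕ × ℕ × Bool × Bool × Bool × Bool) := [(0, 1, 2, 4, 6, 7, true, false, true, true),
  (1, 3, 0, 4, 6, 7, true, true, true, true),
  (1, 3, 0, 2, 6, 7, false, true, true, true),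
  (1, 5, 0, 3, 4, 6, false, false, true, true),
  (1, 5, 0, 3, 4, 7, false, false, true, true),
  (1, 6, 0, 3, 4, 7, false, false, true, true)]

def parS : List (ℕ × ℕ × ℕ × ℕ) := [(0, 1, 5, 225), (1, 3, 7, 202), (1, 3, 5, 86), (3, 5, 7, 154), (1, 4, 7, 106), (1, 3, 6, 150),
  (0, 1, 5, 226), (1, 3, 6, 86), (0, 5, 7, 147), (1, 3, 5, 228), (0, 5, 7, 166), (3, 5, 7, 90),
  (3, 5, 7, 102), (1, 4, 5, 58), (1, 3, 7, 90), (1, 3, 5, 154), (0, 5, 7, 150), (1, 4, 7, 154),
  (1, 3, 5, 106), (0, 1, 6, 195), (1, 3, 5, 58), (1, 3, 6, 106), (1, 3, 5, 170), (1, 3, 5, 216),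
  (1, 4, 7, 142), (3, 5, 7, 150), (1, 3, 6, 166), (0, 5, 7, 99), (1, 3, 5, 150), (1, 3, 5, 166),
  (1, 3, 5, 54), (0, 5, 7, 163), (3, 5, 7, 166), (1, 4, 5, 46), (1, 3, 6, 54), (1, 3, 6, 170),
  (1, 3, 6, 202), (0, 5, 7, 83), (1, 3, 6, 180), (1, 4, 7, 78), (0, 5, 7, 86), (1, 3, 5, 90),
  (1, 3, 6, 58), (3, 5, 7, 86), (3, 5, 7, 106), (1, 4, 7, 170), (1, 3, 6, 102), (1, 3, 6, 90),
  (1, 3, 5, 212), (1, 3, 5, 102), (1, 3, 6, 184), (0, 5, 7, 102), (1, 4, 7, 172), (1, 3, 6, 78),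
  (1, 3, 6, 154), (1, 3, 6, 142), (3, 5, 7, 170), (0, 1, 4, 240), (1, 4, 7, 108),
  (1, 3, 5, 232), (1, 4, 7, 90)]

def parT : List (ℕ × ℕ × ℕ) := [(29, 75, 209), (15, 163, 201), (43, 113, 195), (43, 177, 195), (15, 149, 195), (23, 113, 195),
  (15, 99, 201), (29, 71, 209), (29, 83, 197), (15, 85, 195), (15, 105, 195), (29, 83, 201),
  (53, 83, 225), (15, 169, 195), (15, 163, 197), (53, 147, 225), (15, 165, 195), (15, 99, 197),
  (39, 177, 195), (27, 113, 195), (15, 153, 195), (39, 113, 195), (15, 147, 197),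
  (29, 147, 201), (15, 101, 195), (27, 177, 195), (23, 177, 195), (15, 89, 195)]

def steps : List (Cl × List Nat) := [
  ([(759, true), (94, false), (671, false), (95, false), (670, true)], [0, 16]),
  ([(670, false), (742, true), (750, true), (759, false), (4171, true)], [5, 59]),
  ([(670, true), (742, true), (750, true), (759, true), (4293, true)], [6, 64]),
  ([(670, false), (742, false), (750, true), (759, true), (4249, true)], [7, 69]),
  ([(670, true), (742, true), (750, false), (759, true), (4261, true)], [8, 71]),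
  ([(670, true), (742, true), (750, true), (759, false), (4167, true)], [9, 75]),
  ([(670, false), (742, false), (750, false), (759, true), (4273, true)], [10, 79]),
  ([(670, true), (742, true), (750, false), (759, false), (4197, true)], [11, 81]),
  ([(670, false), (742, false), (750, false), (759, false), (4209, true)], [12, 83]),
  ([(92, false), (101, false), (102, false), (4111, true)], [11, 15, 86]),
  ([(679, false), (743, false), (815, true), (823, true), (4243, true)], [16, 88]),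
  ([(823, false), (102, false), (759, true), (742, false)], [15, 16, 30]),
  ([(669, true), (741, false), (750, false), (751, false), (4119, true)], [20, 91]),
  ([(679, true), (743, false), (815, false), (823, true), (4261, true)], [19, 93]),
  ([(86, true)], [25, 16, 19, 17, 20, 28]),
  ([(4291, true)], [0, 19, 22, 20, 26, 54]),
  ([(4111, true)], [28, 25, 27, 6]),
  ([(4245, false)], [0, 1, 102]),
  ([(4181, false)], [1, 2, 108]),
  ([(4201, false)], [2, 3, 110]),
  ([(4265, false)], [3, 4, 114]),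
  ([(4261, false)], [4, 5, 118]),
  ([(4249, false)], [5, 6, 123]),
  ([(4197, false)], [6, 7, 128]),
  ([(4185, false)], [7, 8, 132]),
  ([(4321, true)], [38, 26, 32, 33, 37, 45]),
  ([(4125, true)], [39, 27, 33, 34, 38, 52]),
  ([(741, false), (750, false), (751, false), (4209, false)], [11, 35, 127, 113, 14, 56]),
  ([(750, false), (751, false), (4209, false)], [12, 36, 130, 111, 0, 96, 71]),
  ([(741, true), (751, false), (750, true)], [37, 5, 9, 77, 64]),
  ([(742, false), (750, true), (759, false)], [34, 5, 11, 85, 76]),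
  ([(303, false), (375, false), (239, true), (4243, true)], [11, 44, 67, 59]),
  ([(303, true), (375, false), (4259, true), (239, true)], [45, 7, 83, 62]),
  ([(375, false), (239, true), (4259, true), (4243, true)], [1, 0]),
  ([(303, true), (375, true), (4195, true), (239, true)], [47, 11, 81, 105]),
  ([(741, false), (751, false), (750, true)], [43, 10, 16, 77, 84]),
  ([(751, false), (750, true)], [6, 0]),
  ([(751, false), (4209, false)], [8, 0]),
  ([(751, true), (1839, false), (239, false), (1911, false)], [18, 14, 61, 83]),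
  ([(751, true), (1911, false), (239, false), (1839, true)], [20, 14, 91, 115]),
  ([(751, true), (1911, false), (239, false)], [1, 0]),
  ([(1839, true), (1911, true), (239, false), (751, true)], [23, 18, 73, 105]),
  ([(1839, false), (1911, true), (239, false), (751, true)], [21, 20, 73, 105]),
  ([(1911, true), (239, false), (751, true)], [1, 0]),
  ([(751, true), (239, false)], [3, 0]),
  ([(741, false), (750, true), (4293, true), (4305, true), (751, true)], [58, 52, 53, 57, 63, 62, 78, 98]),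
  ([(741, true), (750, false), (751, true)], [54, 25, 24, 107, 68]),
  ([(741, false), (750, false), (751, true)], [55, 24, 29, 85, 116]),
  ([(750, false), (751, true)], [1, 0]),
  ([(4293, false), (239, true)], [32, 22, 28, 62, 144, 147, 152, 138, 15, 14, 109, 106]),
  ([(4297, false), (239, true)], [33, 23, 29, 63, 132, 137, 142, 154, 16, 15, 110, 107]),
  ([(741, true), (751, true)], [59, 6, 0, 1, 2, 91, 101]),
  ([(759, false), (751, true)], [25, 7, 2, 3, 0, 6, 140, 133, 21, 50, 46]),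
  ([(742, true), (751, true)], [57, 0, 8, 2, 3, 4, 107, 50]),
  ([(742, false), (759, true), (750, true)], [31, 58, 36, 95, 50]),
  ([(751, true)], [6, 2, 1, 0]),
  ([(4209, false)], [0, 18]),
  ([(750, true)], [1, 20]),
  ([(741, false), (4273, false)], [42, 0, 2, 66, 165, 164, 45, 87]),
  ([(4273, false)], [43, 3, 1, 67, 143, 158, 0, 102, 127]),
  ([(815, true), (4243, true), (743, false), (823, true)], [42, 66, 84, 49]),
  ([(815, false), (823, true), (743, false)], [39, 67, 1, 120, 47]),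
  ([(4243, true), (823, true), (743, false)], [1, 0]),
  ([(742, false), (759, true)], [37, 73, 7, 41, 67, 5, 3, 74, 51, 56, 62, 97, 84, 159, 0]),
  ([(742, true), (759, true)], [6, 42, 68, 43, 91, 59]),
  ([(759, true)], [1, 0]),
  ([(742, true)], [46, 70, 42, 0, 8, 91, 58]),
  ([(743, true)], [0, 71, 76, 77, 1, 82]),
  ([(670, false)], [1, 10, 2, 11, 59]),
  ([(4149, true)], [0, 73, 11, 3, 2, 125]),
  ([(4179, false)], [0, 44, 163]),
  ([(4243, false)], [1, 45, 167]),
  ([(823, true)], [0, 4, 9]),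
  ([(815, false)], [16, 49, 0, 5, 79, 117, 110]),
  ([(679, true)], [0, 80, 6, 1, 55, 139]),
  ([], [1, 0, 81, 2, 7, 4, 147])]

/-- All starting clauses. -/
def cnf : List Cl :=
  (parU.map fun t => unitCl t.1 t.2) ++
  ((parG.map fun t => gpCl t.1 t.2.1 t.2.2.1 t.2.2.2.1 t.2.2.2.2.1 t.2.2.2.2.2.1 t.2.2.2.2.2.2.1
    t.2.2.2.2.2.2.2.1 t.2.2.2.2.2.2.2.2.1 t.2.2.2.2.2.2.2.2.2) ++
  ((parS.map fun t => sepCl t.1 t.2.1 t.2.2.1 t.2.2.2) ++
  (parT.map fun t => goalCl t.1 t.2.1 t.2.2)))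

theorem parU_ok : ∀ t ∈ parU, 2 ≤ t.1 ∧ t.1 < t.2 ∧ t.2 < 8 := by decide +kernel

theorem parG_ok : ∀ t ∈ parG, dist6 t.1 t.2.1 t.2.2.1 t.2.2.2.1 t.2.2.2.2.1 t.2.2.2.2.2.1
    = true := by decide +kernel

theorem parS_ok : ∀ t ∈ parS, dist3 t.1 t.2.1 t.2.2.1 = true := by decide +kernel

theorem parT_ok : ∀ t ∈ parT, goodB t.1 t.2.1 t.2.2 = true := by decide +kernel

theorem steps_ok : chk cnf steps = true := by decide +kernel

theorem cnf_sat (hG : GP x y z) (hs : ∀ i j, 2 ≤ i → i < j → j < 8 → 0 < D x y z 0 1 i j)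
    (hno : ∀ m1 m2 m3, goodB m1 m2 m3 = true → Sep x y z m1 → Sep x y z m2 →
      Sep x y z m3 → False) : ∀ c ∈ cnf, Sat (val x y z) c := by
  intro c hc
  unfold cnf at hc
  simp only [List.mem_append, List.mem_map] at hc
  rcases hc with ⟨t, ht, rfl⟩ | ⟨t, ht, rfl⟩ | ⟨t, ht, rfl⟩ | ⟨t, ht, rfl⟩
  · exact unitCl_sat hG hs _ _ (parU_ok t ht)
  · exact gpCl_sat hG _ _ _ _ _ _ _ _ _ _ (parG_ok t ht)
  · exact sepCl_sat hG _ _ _ _ (parS_ok t ht)
  · exact goalCl_sat hno _ _ _ (parT_ok t ht)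

/-- The combinatorial core: if the points `2, …, 7` are sorted around the line through the points
`0` and `1`, then three planes separate the eight points. -/
theorem core (hG : GP x y z) (hs : ∀ i j, 2 ≤ i → i < j → j < 8 → 0 < D x y z 0 1 i j) :
    ∃ m1 m2 m3, goodB m1 m2 m3 = true ∧ Sep x y z m1 ∧ Sep x y z m2 ∧ Sep x y z m3 := by
  by_contra hcon
  refine chk_sound (val x y z) steps cnf steps_ok (cnf_sat hG hs ?_)
  intro m1 m2 m3 h h1 h2 h3
  exact hcon ⟨m1, m2, m3, h, h1, h2, h3⟩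

end Pool.Agent.U433.Sep8
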