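import Mathlib

/-!
Separating eight points in space: a small verified clause checker and the geometric facts
(chirotope identities, separable bipartitions) that it is applied to.
-/

set_option autoImplicit false

namespace Pool.Agent.U433.Sep8

open Filter Topology

/-- A literal: a variable number with its asserted truth value. -/
abbrev Lit := Nat × Bool

/-- A clause is a list of literals. -/
abbrev Cl := List Lit

/-- The clause `c` is satisfied by `v`. -/
def Sat (v : Nat → Bool) (c : Cl) : Prop := ∃ l ∈ c, v l.1 = l.2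

/-- The literal `l` is falsified by the list `A` of true literals. -/
def isFalse (A : List Lit) (l : Lit) : Bool := A.any fun a => (a.1 == l.1) && (a.2 != l.2)

/-- The literals of `c` not falsified by `A`. -/
def red (A : List Lit) (c : Cl) : Cl := c.filter fun l => !(isFalse A l)

/-- Unit propagation along the hinted clauses ends in a conflict. -/
def rup (db : List Cl) : List Lit → List Nat → Bool
  | _, [] => false
  | A, h :: hs =>
    match db[h]? with
    | none => false
    | some c =>
      match red A c with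
      | [] => true
      | [l] => rup db (l :: A) hs
      | _ :: _ :: _ => false

/-- The opposite literal. -/
def neg (l : Lit) : Lit := (l.1, !l.2)

/-- Checks a list of derived clauses ending in the empty clause. -/
def chk : List Cl → List (Cl × List Nat) → Bool
  | _, [] => false
  | db, (c, hs) :: rest => rup db (c.map neg) hs && (c.isEmpty || chk (c :: db) rest)

theorem rup_sound (v : Nat → Bool) (db : List Cl) (hdb : ∀ c ∈ db, Sat v c) :
    ∀ (hs : List Nat) (A : List Lit), rup db A hs = true → ¬ ∀ a ∈ A, v a.1 = a.2 := by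
  intro hs
  induction hs with
  | nil => intro A h; simp [rup] at h
  | cons h hs ih =>
    intro A hr hA
    unfold rup at hr
    split at hr
    · exact absurd hr (by simp)
    · rename_i c hc
      have hmem : c ∈ db := List.mem_of_getElem? hc
      obtain ⟨l, hl, hvl⟩ := hdb c hmem
      have hnf : isFalse A l = false := by
        by_contra hcon
        have : isFalse A l = true := by simpa using hcon
        unfold isFalse at this
        rw [List.any_eq_true] at this
        obtain ⟨a, ha, hab⟩ := this
        have h1 := hA a ha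
        simp only [Bool.and_eq_true, beq_iff_eq, bne_iff_ne, ne_eq] at hab
        apply hab.2
        rw [← h1, hab.1, hvl]
      have hlr : l ∈ red A c := by
        unfold red
        rw [List.mem_filter]
        exact ⟨hl, by simp [hnf]⟩
      split at hr
      · rename_i h0
        rw [h0] at hlr
        exact absurd hlr (by simp)
      · rename_i l' h0
        rw [h0] at hlr
        have hll : l = l' := by simpa using hlr
        refine ih (l' :: A) hr ?_
        intro a ha
        rcases List.mem_cons.1 ha with rfl | ha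
        · rw [← hll]; exact hvl
        · exact hA a ha
      · exact absurd hr (by simp)

theorem chk_sound (v : Nat → Bool) : ∀ (steps : List (Cl × List Nat)) (db : List Cl),
    chk db steps = true → (∀ c ∈ db, Sat v c) → False := by
  intro steps
  induction steps with
  | nil => intro db h; simp [chk] at h
  | cons st rest ih =>
    intro db h hdb
    obtain ⟨c, hs⟩ := st
    unfold chk at h
    rw [Bool.and_eq_true, Bool.or_eq_true] at h
    have hc : Sat v c := by
      by_contra hcon
      refine rup_sound v db hdb hs _ h.1 ?_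
      intro a ha
      rw [List.mem_map] at ha
      obtain ⟨l, hl, rfl⟩ := ha
      have : v l.1 ≠ l.2 := fun h => hcon ⟨l, hl, h⟩
      simp only [neg]
      cases hv : v l.1 <;> cases hl2 : l.2 <;> simp_all
    rcases h.2 with h0 | h0
    · rw [List.isEmpty_iff] at h0
      subst h0
      obtain ⟨l, hl, _⟩ := hc
      simp at hl
    · refine ih (c :: db) h0 ?_
      intro c' hc'
      rcases List.mem_cons.1 hc' with rfl | hc'
      · exact hc
      · exact hdb c' hc'

/-! ### Determinants -/

/-- The determinant of three vectors, by components. -/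
def det3 (a1 a2 a3 b1 b2 b3 c1 c2 c3 : ℝ) : ℝ :=
  a1 * (b2 * c3 - b3 * c2) - a2 * (b1 * c3 - b3 * c1) + a3 * (b1 * c2 - b2 * c1)

theorem det3_gp (a1 a2 a3 b1 b2 b3 c1 c2 c3 d1 d2 d3 e1 e2 e3 : ℝ) :
    det3 a1 a2 a3 b1 b2 b3 c1 c2 c3 * det3 a1 a2 a3 d1 d2 d3 e1 e2 e3
      - det3 a1 a2 a3 b1 b2 b3 d1 d2 d3 * det3 a1 a2 a3 c1 c2 c3 e1 e2 e3
      + det3 a1 a2 a3 b1 b2 b3 e1 e2 e3 * det3 a1 a2 a3 c1 c2 c3 d1 d2 d3 = 0 := by
  unfold det3; ring

/-- Orientation determinant of four points given by coordinate sequences. -/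
def D (x y z : ℕ → ℝ) (a b c d : ℕ) : ℝ :=
  det3 (x b - x a) (y b - y a) (z b - z a) (x c - x a) (y c - y a) (z c - z a)
    (x d - x a) (y d - y a) (z d - z a)

variable {x y z : ℕ → ℝ}

theorem D_swap12 (a b c d : ℕ) : D x y z b a c d = - D x y z a b c d := by
  unfold D det3; ring
theorem D_swap23 (a b c d : ℕ) : D x y z a c b d = - D x y z a b c d := by
  unfold D det3; ring
theorem D_swap34 (a b c d : ℕ) : D x y z a b d c = - D x y z a b c d := by
  unfold D det3; ring

theorem D_gp (a b c d e f : ℕ) :
    D x y z a b c d * D x y z a b e f - D x y z a b c e * D x y z a b d f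
      + D x y z a b c f * D x y z a b d e = 0 := by
  unfold D; exact det3_gp _ _ _ _ _ _ _ _ _ _ _ _ _ _ _

/-- `f` is an affine function of the points. -/
def Aff (x y z : ℕ → ℝ) (f : ℕ → ℝ) : Prop :=
  ∃ A B C E : ℝ, ∀ t, f t = A * x t + B * y t + C * z t + E

theorem Aff.add {f g : ℕ → ℝ} (hf : Aff x y z f) (hg : Aff x y z g) :
    Aff x y z (fun t => f t + g t) := by
  obtain ⟨A, B, C, E, h⟩ := hf
  obtain ⟨A', B', C', E', h'⟩ := hg
  exact ⟨A + A', B + B', C + C', E + E', fun t => by simp only [h, h']; ring⟩

theorem Aff.smul {f : ℕ → ℝ} (r : ℝ) (hf : Aff x y z f) :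
    Aff x y z (fun t => r * f t) := by
  obtain ⟨A, B, C, E, h⟩ := hf
  exact ⟨r * A, r * B, r * C, r * E, fun t => by simp only [h]; ring⟩

theorem aff_D4 (a b c : ℕ) : Aff x y z (fun t => D x y z a b c t) := by
  refine ⟨(y b - y a) * (z c - z a) - (z b - z a) * (y c - y a),
    (z b - z a) * (x c - x a) - (x b - x a) * (z c - z a),
    (x b - x a) * (y c - y a) - (y b - y a) * (x c - x a), ?_, ?_⟩
  · exact -(((y b - y a) * (z c - z a) - (z b - z a) * (y c - y a)) * x a +
      ((z b - z a) * (x c - x a) - (x b - x a) * (z c - z a)) * y a +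
      ((x b - x a) * (y c - y a) - (y b - y a) * (x c - x a)) * z a)
  · intro t; unfold D det3; ring

theorem aff_D3 (a b d : ℕ) : Aff x y z (fun t => D x y z a b t d) := by
  have h := Aff.smul (-1) (aff_D4 (x := x) (y := y) (z := z) a b d)
  have e : (fun t => D x y z a b t d) = fun t => (-1) * D x y z a b d t := by
    funext t; rw [D_swap34 a b d t]; ring
  rw [e]; exact h

theorem aff_D2 (a c d : ℕ) : Aff x y z (fun t => D x y z a t c d) := by
  have h := Aff.smul (-1) (aff_D3 (x := x) (y := y) (z := z) a c d)
  have e : (fun t => D x y z a t c d) = fun t => (-1) * D x y z a c t d := by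
    funext t; rw [D_swap23 a c t d]; ring
  rw [e]; exact h

theorem aff_D1 (b c d : ℕ) : Aff x y z (fun t => D x y z t b c d) := by
  have h := Aff.smul (-1) (aff_D2 (x := x) (y := y) (z := z) b c d)
  have e : (fun t => D x y z t b c d) = fun t => (-1) * D x y z b t c d := by
    funext t; rw [D_swap12 b t c d]; ring
  rw [e]; exact h

/-- Five-point affine dependence applied to an affine function. -/
theorem aff_five {f : ℕ → ℝ} (hf : Aff x y z f) (a b c d e : ℕ) :
    f a * D x y z b c d e - f b * D x y z a c d e + f c * D x y z a b d e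
      - f d * D x y z a b c e + f e * D x y z a b c d = 0 := by
  obtain ⟨A, B, C, E, h⟩ := hf
  simp only [h]; unfold D det3; ring

/-- General position of the first eight points. -/
def GP (x y z : ℕ → ℝ) : Prop :=
  ∀ a b c d, a < 8 → b < 8 → c < 8 → d < 8 → a ≠ b → a ≠ c → a ≠ d → b ≠ c → b ≠ d → c ≠ d →
    D x y z a b c d ≠ 0

/-- The bipartition of `{0, …, 7}` coded by the bits of `m` is induced by a plane. -/
def Sep (x y z : ℕ → ℝ) (m : ℕ) : Prop :=
  ∃ f : ℕ → ℝ, Aff x y z f ∧ ∀ i, i < 8 →
    ((m.testBit i = true → 0 < f i) ∧ (m.testBit i = false → f i < 0))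

theorem testBit_255 (i : ℕ) (hi : i < 8) : Nat.testBit 255 i = true := by
  interval_cases i <;> decide

theorem Sep.compl {m : ℕ} (h : Sep x y z m) : Sep x y z (255 ^^^ m) := by
  obtain ⟨f, hf, hi⟩ := h
  refine ⟨_, hf.smul (-1), ?_⟩
  intro i hi8
  have h1 := hi i hi8
  rw [Nat.testBit_xor, testBit_255 i hi8]
  constructor
  · intro h; have h2 : m.testBit i = false := by simpa using h
    have := h1.2 h2; linarith
  · intro h; have h2 : m.testBit i = true := by simpa using h
    have := h1.1 h2; linarith

theorem exists_other (i j k : ℕ) : ∃ l, l < 8 ∧ l ≠ i ∧ l ≠ j ∧ l ≠ k := by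
  by_cases h0 : (0 ≠ i ∧ 0 ≠ j ∧ 0 ≠ k)
  · exact ⟨0, by norm_num, h0⟩
  by_cases h1 : (1 ≠ i ∧ 1 ≠ j ∧ 1 ≠ k)
  · exact ⟨1, by norm_num, h1⟩
  by_cases h2 : (2 ≠ i ∧ 2 ≠ j ∧ 2 ≠ k)
  · exact ⟨2, by norm_num, h2⟩
  refine ⟨3, by norm_num, ?_⟩
  omega

/-- A sign as a real number. -/
def sgn (b : Bool) : ℝ := if b then 1 else -1

theorem eventually_pos (u w : ℝ) (hu : 0 < u) : ∀ᶠ ε in 𝓝[>] (0 : ℝ), 0 < u + ε * w := by
  have hc : Continuous (fun ε : ℝ => u + ε * w) := by fun_prop
  have ht : Tendsto (fun ε : ℝ => u + ε * w) (𝓝[>] 0) (𝓝 u) := by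
    have := hc.tendsto 0
    simp only [zero_mul, add_zero] at this
    exact this.mono_left nhdsWithin_le_nhds
  exact ht.eventually (lt_mem_nhds hu)

/-- Planes through three of the points, slightly moved, induce these bipartitions. -/
theorem sep_of_plane (hG : GP x y z) (i j k m : ℕ) (hi : i < 8) (hj : j < 8) (hk : k < 8)
    (hij : i ≠ j) (hik : i ≠ k) (hjk : j ≠ k)
    (h : ∀ l, l < 8 → l ≠ i → l ≠ j → l ≠ k → (m.testBit l = true ↔ 0 < D x y z i j k l)) :
    Sep x y z m := by
  obtain ⟨l0, hl0, hli, hlj, hlk⟩ := exists_other i j k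
  have hD0 : D x y z i j k l0 ≠ 0 :=
    hG i j k l0 hi hj hk hl0 hij hik hli.symm hjk hlj.symm hlk.symm
  set D0 := D x y z i j k l0 with hD0def
  let g : ℕ → ℝ := fun t => (sgn (m.testBit i) / D0) * D x y z t j k l0 +
    ((sgn (m.testBit j) / D0) * D x y z i t k l0 + (sgn (m.testBit k) / D0) * D x y z i j t l0)
  have hg : Aff x y z g :=
    ((aff_D1 j k l0).smul _).add (((aff_D2 i k l0).smul _).add ((aff_D3 i j l0).smul _))
  have e1 : D x y z i i k l0 = 0 := by unfold D det3; ring
  have e2 : D x y z i j i l0 = 0 := by unfold D det3; ring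
  have e3 : D x y z j j k l0 = 0 := by unfold D det3; ring
  have e4 : D x y z i j j l0 = 0 := by unfold D det3; ring
  have e5 : D x y z k j k l0 = 0 := by unfold D det3; ring
  have e6 : D x y z i k k l0 = 0 := by unfold D det3; ring
  have gi : g i = sgn (m.testBit i) := by
    simp only [g, e1, e2, ← hD0def]; field_simp; ring
  have gj : g j = sgn (m.testBit j) := by
    simp only [g, e3, e4, ← hD0def]; field_simp; ring
  have gk : g k = sgn (m.testBit k) := by
    simp only [g, e5, e6, ← hD0def]; field_simp; ring
  have f1 : D x y z i j k i = 0 := by unfold D det3; ring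
  have f2 : D x y z i j k j = 0 := by unfold D det3; ring
  have f3 : D x y z i j k k = 0 := by unfold D det3; ring
  have key : ∀ l ∈ Finset.range 8, ∀ᶠ ε in 𝓝[>] (0 : ℝ),
      ((m.testBit l = true → 0 < D x y z i j k l + ε * g l) ∧
        (m.testBit l = false → D x y z i j k l + ε * g l < 0)) := by
    intro l hl
    rw [Finset.mem_range] at hl
    have hpos : ∀ᶠ ε in 𝓝[>] (0 : ℝ), 0 < ε := self_mem_nhdsWithin
    have aux : ∀ l', D x y z i j k l' = 0 → g l' = sgn (m.testBit l') →
        ∀ᶠ ε in 𝓝[>] (0 : ℝ),
      ((m.testBit l' = true → 0 < D x y z i j k l' + ε * g l') ∧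
        (m.testBit l' = false → D x y z i j k l' + ε * g l' < 0)) := by
      intro l' h0 h1
      filter_upwards [hpos] with ε hε
      rw [h0, h1]
      constructor
      · intro hb; rw [hb]; simp [sgn, hε]
      · intro hb; rw [hb]; simp [sgn, hε]
    by_cases hl1 : l = i
    · subst hl1; exact aux l f1 gi
    by_cases hl2 : l = j
    · subst hl2; exact aux l f2 gj
    by_cases hl3 : l = k
    · subst hl3; exact aux l f3 gk
    have hiff := h l hl hl1 hl2 hl3
    have hne : D x y z i j k l ≠ 0 := hG i j k l hi hj hk hl hij hik (Ne.symm hl1) hjk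
      (Ne.symm hl2) (Ne.symm hl3)
    rcases lt_or_gt_of_ne hne with hneg | hpo
    · have hb : m.testBit l = false := by
        by_contra hcon
        have : m.testBit l = true := by simpa using hcon
        exact absurd (hiff.1 this) (not_lt.2 hneg.le)
      have := eventually_pos (-(D x y z i j k l)) (-(g l)) (by linarith)
      filter_upwards [this] with ε hε
      refine ⟨fun h => absurd h (by simp [hb]), fun _ => by linarith⟩
    · have hb : m.testBit l = true := hiff.2 hpo
      filter_upwards [eventually_pos _ (g l) hpo] with ε hε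
      exact ⟨fun _ => hε, fun h => absurd h (by simp [hb])⟩
  rw [← Filter.eventually_all_finset] at key
  obtain ⟨ε, hε⟩ := key.exists
  refine ⟨_, (aff_D4 i j k).add (hg.smul ε), ?_⟩
  intro l hl
  exact hε l (Finset.mem_range.2 hl)

end Pool.Agent.U433.Sep8
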