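import Pool.Agent.U433.Sep8Cert

/-!
Separating eight points in space: a hull edge exists, and the other six points can be sorted
around it.
-/

set_option autoImplicit false

namespace Pool.Agent.U433.Sep8

open Filter Topology

variable {x y z : ℕ → ℝ}

/-- An affine function with a nonzero linear part vanishes on at most three of the points. -/
theorem D_eq_zero_of_aff (A B C E : ℝ) (h0 : ¬ (A = 0 ∧ B = 0 ∧ C = 0)) (a b c d : ℕ)
    (ha : A * x a + B * y a + C * z a + E = 0) (hb : A * x b + B * y b + C * z b + E = 0)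
    (hc : A * x c + B * y c + C * z c + E = 0) (hd : A * x d + B * y d + C * z d + E = 0) :
    D x y z a b c d = 0 := by
  have e1 : A * (x b - x a) + B * (y b - y a) + C * (z b - z a) = 0 := by linarith
  have e2 : A * (x c - x a) + B * (y c - y a) + C * (z c - z a) = 0 := by linarith
  have e3 : A * (x d - x a) + B * (y d - y a) + C * (z d - z a) = 0 := by linarith
  have hA : A * D x y z a b c d = 0 := by
    unfold D det3
    linear_combination ((y c - y a) * (z d - z a) - (z c - z a) * (y d - y a)) * e1
      - ((y b - y a) * (z d - z a) - (z b - z a) * (y d - y a)) * e2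
      + ((y b - y a) * (z c - z a) - (z b - z a) * (y c - y a)) * e3
  have hB : B * D x y z a b c d = 0 := by
    unfold D det3
    linear_combination (-((x c - x a) * (z d - z a) - (z c - z a) * (x d - x a))) * e1
      + ((x b - x a) * (z d - z a) - (z b - z a) * (x d - x a)) * e2
      - ((x b - x a) * (z c - z a) - (z b - z a) * (x c - x a)) * e3
  have hC : C * D x y z a b c d = 0 := by
    unfold D det3
    linear_combination ((x c - x a) * (y d - y a) - (y c - y a) * (x d - x a)) * e1
      - ((x b - x a) * (y d - y a) - (y b - y a) * (x d - x a)) * e2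
      + ((x b - x a) * (y c - y a) - (y b - y a) * (x c - x a)) * e3
  by_contra hne
  exact h0 ⟨(mul_eq_zero.1 hA).resolve_right hne, (mul_eq_zero.1 hB).resolve_right hne,
    (mul_eq_zero.1 hC).resolve_right hne⟩

/-- A nonnegative affine function with nonzero linear part and at least two zeros. -/
theorem exists_support (hG : GP x y z) : ∃ a b, a < 8 ∧ b < 8 ∧ a ≠ b ∧ ∃ A B C E : ℝ,
    ¬ (A = 0 ∧ B = 0 ∧ C = 0) ∧ A * x a + B * y a + C * z a + E = 0 ∧
    A * x b + B * y b + C * z b + E = 0 ∧ ∀ i, i < 8 → 0 ≤ A * x i + B * y i + C * z i + E := by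
  obtain ⟨a, ha, hmin⟩ := Finset.exists_min_image (Finset.range 8) x ⟨0, by simp⟩
  rw [Finset.mem_range] at ha
  by_cases hex : ∃ b, b < 8 ∧ b ≠ a ∧ x b = x a
  · obtain ⟨b, hb, hba, hxb⟩ := hex
    refine ⟨a, b, ha, hb, hba.symm, 1, 0, 0, -x a, by simp, by ring, by rw [hxb]; ring, ?_⟩
    intro i hi
    have := hmin i (Finset.mem_range.2 hi)
    linarith
  · push Not at hex
    have hlt : ∀ i, i < 8 → i ≠ a → x a < x i := fun i hi hia =>
      lt_of_le_of_ne (hmin i (Finset.mem_range.2 hi)) (hex i hi hia).symm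
    obtain ⟨l0, hl0, hla, _, _⟩ := exists_other a a a
    obtain ⟨b, hb, hbmin⟩ := Finset.exists_min_image ((Finset.range 8).erase a)
      (fun i => (y i - y a) / (x i - x a)) ⟨l0, by simp [hl0, hla]⟩
    rw [Finset.mem_erase, Finset.mem_range] at hb
    have hxb : 0 < x b - x a := by linarith [hlt b hb.2 hb.1]
    refine ⟨a, b, ha, hb.2, hb.1.symm, -(y b - y a), x b - x a, 0,
      (y b - y a) * x a - (x b - x a) * y a, ?_, by ring, by ring, ?_⟩
    · intro h; exact hxb.ne' h.2.1
    · intro i hi
      by_cases hia : i = a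
      · subst hia; apply le_of_eq; ring
      · have hxi : 0 < x i - x a := by linarith [hlt i hi hia]
        have h1 := hbmin i (by simp [hi, hia])
        rw [div_le_div_iff₀ hxb hxi] at h1
        nlinarith

/-- A hull edge: an affine function vanishing at exactly two of the points and positive at
the others. -/
theorem exists_edge (hG : GP x y z) : ∃ a b, a < 8 ∧ b < 8 ∧ a ≠ b ∧ ∃ F : ℕ → ℝ,
    Aff x y z F ∧ F a = 0 ∧ F b = 0 ∧ ∀ i, i < 8 → i ≠ a → i ≠ b → 0 < F i := by
  obtain ⟨a, b, ha, hb, hab, A, B, C, E, h0, hFa, hFb, hF⟩ := exists_support hG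
  by_cases hex : ∃ c, c < 8 ∧ c ≠ a ∧ c ≠ b ∧ A * x c + B * y c + C * z c + E = 0
  · obtain ⟨c, hc, hca, hcb, hFc⟩ := hex
    have hpos : ∀ i, i < 8 → i ≠ a → i ≠ b → i ≠ c → 0 < A * x i + B * y i + C * z i + E := by
      intro i hi h1 h2 h3
      refine lt_of_le_of_ne (hF i hi) ?_
      intro h
      exact hG a b c i ha hb hc hi hab hca.symm h1.symm hcb.symm h2.symm h3.symm
        (D_eq_zero_of_aff A B C E h0 a b c i hFa hFb hFc h.symm)
    obtain ⟨d, hd, hda, hdb, hdc⟩ := exists_other a b c
    have hDne : D x y z a b c d ≠ 0 :=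
      hG a b c d ha hb hc hd hab hca.symm hda.symm hcb.symm hdb.symm hdc.symm
    let g : ℕ → ℝ := fun t => (1 / D x y z a b c d) * D x y z a b t d
    have hg : Aff x y z g := (aff_D3 a b d).smul _
    have ga : g a = 0 := by
      have : D x y z a b a d = 0 := by unfold D det3; ring
      simp only [g, this, mul_zero]
    have gb : g b = 0 := by
      have : D x y z a b b d = 0 := by unfold D det3; ring
      simp only [g, this, mul_zero]
    have gc : g c = 1 := by simp only [g]; field_simp
    have key : ∀ l ∈ Finset.range 8, ∀ᶠ ε in 𝓝[>] (0 : ℝ), l ≠ a → l ≠ b →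
        0 < (A * x l + B * y l + C * z l + E) + ε * g l := by
      intro l hl
      rw [Finset.mem_range] at hl
      by_cases h1 : l = a
      · exact Eventually.of_forall fun ε h => absurd h1 h
      by_cases h2 : l = b
      · exact Eventually.of_forall fun ε _ h => absurd h2 h
      by_cases h3 : l = c
      · subst h3
        have hp : ∀ᶠ ε in 𝓝[>] (0 : ℝ), 0 < ε := self_mem_nhdsWithin
        filter_upwards [hp] with ε hε
        intro _ _
        rw [hFc, gc]; linarith
      · filter_upwards [eventually_pos _ (g l) (hpos l hl h1 h2 h3)] with ε hε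
        intro _ _; exact hε
    rw [← Filter.eventually_all_finset] at key
    obtain ⟨ε, hε⟩ := key.exists
    refine ⟨a, b, ha, hb, hab, fun t => (A * x t + B * y t + C * z t + E) + ε * g t, ?_, ?_, ?_, ?_⟩
    · exact Aff.add ⟨A, B, C, E, fun _ => rfl⟩ (hg.smul ε)
    · simp only [hFa, ga]; ring
    · simp only [hFb, gb]; ring
    · intro i hi h1 h2
      exact hε i (Finset.mem_range.2 hi) h1 h2
  · push Not at hex
    refine ⟨a, b, ha, hb, hab, _, ⟨A, B, C, E, fun _ => rfl⟩, hFa, hFb, ?_⟩
    intro i hi h1 h2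
    exact lt_of_le_of_ne (hF i hi) (hex i hi h1 h2).symm

/-- The points can be relabelled so that the core applies. -/
theorem exists_sorted (hG : GP x y z) : ∃ σ : Equiv.Perm (Fin 8),
    ∀ i j : Fin 8, 2 ≤ i.val → i < j → 0 < D x y z (σ 0) (σ 1) (σ i) (σ j) := by
  obtain ⟨a, b, ha, hb, hab, F, hF, hFa, hFb, hpos⟩ := exists_edge hG
  obtain ⟨d, hd, hda, hdb, _⟩ := exists_other a b b
  let G : ℕ → ℝ := fun t => D x y z a b d t
  have rel : ∀ i j, F d * D x y z a b i j = F i * G j - F j * G i := by
    intro i j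
    have := aff_five hF a b d i j
    rw [hFa, hFb] at this
    simp only [G]; linarith
  let key : Fin 8 → Lex (ℕ × ℝ) := fun i =>
    toLex (if i.val = a then 0 else if i.val = b then 1 else 2,
      if i.val = a then 0 else if i.val = b then 0 else G i / F i)
  let σ := Tuple.sort key
  have hmono : Monotone (key ∘ σ) := Tuple.monotone_sort key
  have h0 : (σ 0).val = a := by
    have h := hmono (Fin.zero_le (σ.symm ⟨a, ha⟩))
    simp only [Function.comp, Equiv.apply_symm_apply] at h
    by_contra hne
    have h1 : (ofLex (key ⟨a, ha⟩)).1 = 0 := by simp [key]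
    have h2 : 0 < (ofLex (key (σ 0))).1 := by
      simp only [key, ofLex_toLex]
      rw [if_neg hne]; split_ifs <;> norm_num
    rw [Prod.Lex.le_iff] at h
    rcases h with h | h
    · rw [h1] at h; omega
    · rw [h1] at h; omega
  have h1 : (σ 1).val = b := by
    have hne0 : σ.symm ⟨b, hb⟩ ≠ 0 := by
      intro h
      have : σ 0 = ⟨b, hb⟩ := by rw [← h]; simp
      rw [this] at h0
      exact hab h0.symm
    have hle : (1 : Fin 8) ≤ σ.symm ⟨b, hb⟩ := by
      have : (σ.symm ⟨b, hb⟩).val ≠ 0 := fun h => hne0 (Fin.ext h)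
      rw [Fin.le_def]; simp only [Fin.val_one]; omega
    have h := hmono hle
    simp only [Function.comp, Equiv.apply_symm_apply] at h
    have hne1 : (σ 1).val ≠ a := by
      intro h'
      have : σ 1 = σ 0 := Fin.ext (h'.trans h0.symm)
      have := σ.injective this
      exact absurd this (by decide)
    by_contra hne
    have h1 : (ofLex (key ⟨b, hb⟩)).1 = 1 := by
      simp only [key, ofLex_toLex]
      rw [if_neg (Ne.symm hab)]; simp
    have h2 : (ofLex (key (σ 1))).1 = 2 := by
      simp only [key, ofLex_toLex]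
      rw [if_neg hne1, if_neg hne]
    rw [Prod.Lex.le_iff] at h
    rcases h with h | h
    · rw [h1, h2] at h; omega
    · rw [h1, h2] at h; omega
  refine ⟨σ, ?_⟩
  intro i j hi hij
  have hia : (σ i).val ≠ a := by
    intro h'
    have := σ.injective (Fin.ext (h'.trans h0.symm) : σ i = σ 0)
    rw [this] at hi; simp at hi
  have hib : (σ i).val ≠ b := by
    intro h'
    have := σ.injective (Fin.ext (h'.trans h1.symm) : σ i = σ 1)
    rw [this] at hi; simp at hi
  have hja : (σ j).val ≠ a := by
    intro h'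
    have := σ.injective (Fin.ext (h'.trans h0.symm) : σ j = σ 0)
    rw [this] at hij; exact absurd hij (Fin.not_lt_zero i)
  have hjb : (σ j).val ≠ b := by
    intro h'
    have := σ.injective (Fin.ext (h'.trans h1.symm) : σ j = σ 1)
    rw [this, Fin.lt_def] at hij; simp at hij; omega
  have hne : (σ i).val ≠ (σ j).val := by
    intro h
    have := σ.injective (Fin.ext h)
    exact absurd this hij.ne
  have h := hmono hij.le
  simp only [Function.comp] at h
  have e1 : (key (σ i)) = toLex (2, G (σ i) / F (σ i)) := by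
    simp only [key]; rw [if_neg hia, if_neg hib, if_neg hia, if_neg hib]
  have e2 : (key (σ j)) = toLex (2, G (σ j) / F (σ j)) := by
    simp only [key]; rw [if_neg hja, if_neg hjb, if_neg hja, if_neg hjb]
  rw [e1, e2, Prod.Lex.le_iff] at h
  simp only [ofLex_toLex, lt_irrefl, false_or, true_and] at h
  have p1 := hpos (σ i) (σ i).isLt hia hib
  have p2 := hpos (σ j) (σ j).isLt hja hjb
  have p3 := hpos d hd hda hdb
  rw [div_le_div_iff₀ p1 p2] at h
  have hD := rel (σ i) (σ j)
  have hne' : D x y z (σ 0) (σ 1) (σ i) (σ j) ≠ 0 := by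
    rw [h0, h1]
    exact hG a b _ _ ha hb (σ i).isLt (σ j).isLt hab hia.symm hja.symm hib.symm hjb.symm hne
  rw [h0, h1] at hne' ⊢
  have hge : 0 ≤ F d * D x y z a b (σ i) (σ j) := by rw [hD]; linarith
  have hge' : 0 ≤ D x y z a b (σ i) (σ j) := nonneg_of_mul_nonneg_right hge p3
  exact lt_of_le_of_ne hge' hne'.symm

end Pool.Agent.U433.Sep8
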